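import Mathlib

set_option autoImplicit false

namespace Pool.Agent.Results.MP_15b8d6_gt.Recon

open Metric Filter Topology

/-- `m(a)`: the points of `X` nearest to `a`. -/
def nearest {n : ℕ} (X : Set (EuclideanSpace ℝ (Fin n))) (a : EuclideanSpace ℝ (Fin n)) :
    Set (EuclideanSpace ℝ (Fin n)) :=
  {x | x ∈ X ∧ dist a x = infDist a X}

/-- The `l`-medial axis: points with more than one nearest point whose set of nearest points lies
in no closed ball of radius `l`. -/
def medial {n : ℕ} (X : Set (EuclideanSpace ℝ (Fin n))) (l : ℝ) :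
    Set (EuclideanSpace ℝ (Fin n)) :=
  {a | (nearest X a).Nontrivial ∧ ∀ c, ¬ nearest X a ⊆ closedBall c l}

lemma bound {n : ℕ} (X : Set (EuclideanSpace ℝ (Fin n))) (p : EuclideanSpace ℝ (Fin n))
    (hp : p ∈ convexHull ℝ X) :
    ∃ H : ℝ, ∀ a, infDist a X ^ 2 - ‖a - p‖ ^ 2 ≤ H := by
  have : ∀ q ∈ convexHull ℝ X, ∃ H : ℝ, ∀ a : EuclideanSpace ℝ (Fin n),
      infDist a X ^ 2 - ‖a‖ ^ 2 + 2 * inner ℝ a q ≤ H := by
    apply convexHull_min (t := {q | ∃ H : ℝ, ∀ a : EuclideanSpace ℝ (Fin n),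
      infDist a X ^ 2 - ‖a‖ ^ 2 + 2 * inner ℝ a q ≤ H})
    · intro x hx
      refine ⟨‖x‖ ^ 2, fun a => ?_⟩
      have h1 : infDist a X ≤ ‖a - x‖ := by
        rw [← dist_eq_norm]; exact infDist_le_dist_of_mem hx
      have h2 : infDist a X ^ 2 ≤ ‖a - x‖ ^ 2 := pow_le_pow_left₀ infDist_nonneg h1 2
      rw [norm_sub_sq_real] at h2
      linarith
    · rintro x ⟨H1, h1⟩ y ⟨H2, h2⟩ s t hs ht hst
      refine ⟨s * H1 + t * H2, fun a => ?_⟩
      rw [inner_add_right, inner_smul_right, inner_smul_right]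
      have e : infDist a X ^ 2 - ‖a‖ ^ 2 = s * (infDist a X ^ 2 - ‖a‖ ^ 2)
          + t * (infDist a X ^ 2 - ‖a‖ ^ 2) := by rw [← add_mul, hst, one_mul]
      nlinarith [mul_le_mul_of_nonneg_left (h1 a) hs, mul_le_mul_of_nonneg_left (h2 a) ht]
  obtain ⟨H, hH⟩ := this p hp
  refine ⟨H, fun a => ?_⟩
  have := hH a
  rw [norm_sub_sq_real]
  nlinarith [sq_nonneg ‖p‖]

theorem result (n : ℕ) (X : Set (EuclideanSpace ℝ (Fin n))) (hne : X.Nonempty) (hX : IsClosed X)
    (l : ℝ) (hl : 0 < l) (p : EuclideanSpace ℝ (Fin n)) (hp : p ∈ convexHull ℝ X)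
    (hd : l < infDist p X) : ∃ a ∈ medial X l, p ∈ ball a (infDist a X) := by
  obtain ⟨H, hH⟩ := bound X p hp
  set d := infDist p X with hdd
  have hgap : 0 < d ^ 2 - l ^ 2 := by nlinarith
  have hH0 : d ^ 2 ≤ H := by simpa using hH p
  have hHpos : 0 < H := by nlinarith
  set ε : ℝ := (d ^ 2 - l ^ 2) / (2 * H) with hε
  have hεpos : 0 < ε := by positivity
  have hεH : ε * H = (d ^ 2 - l ^ 2) / 2 := by rw [hε]; field_simp
  set G : EuclideanSpace ℝ (Fin n) → ℝ := fun a => infDist a X ^ 2 - (1 + ε) * ‖a - p‖ ^ 2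
    with hG
  have hGc : Continuous G := by
    have := continuous_infDist_pt X
    simp only [hG]
    fun_prop
  have hGp : G p = d ^ 2 := by simp [hG, hdd]
  obtain ⟨a, ha⟩ : ∃ a, ∀ y, G y ≤ G a := by
    apply hGc.exists_forall_ge' p
    have : ∀ᶠ y in cocompact (EuclideanSpace ℝ (Fin n)), y ∈ (closedBall p (H / ε + 1))ᶜ :=
      (isCompact_closedBall p _).compl_mem_cocompact
    filter_upwards [this] with y hy
    have h1 : H / ε + 1 < ‖y - p‖ := by
      simpa [mem_closedBall, dist_eq_norm] using hy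
    have h2 : 0 < H / ε := by positivity
    have h3 : H / ε ≤ ‖y - p‖ ^ 2 := by nlinarith
    have h4 : H ≤ ε * ‖y - p‖ ^ 2 := by rwa [div_le_iff₀' hεpos] at h3
    have := hH y
    rw [hGp]
    simp only [hG]
    nlinarith [sq_nonneg d]
  have hap := ha p
  rw [hGp] at hap
  have hap' : d ^ 2 ≤ infDist a X ^ 2 - (1 + ε) * ‖a - p‖ ^ 2 := hap
  have hq : ε * ‖a - p‖ ^ 2 ≤ H := by nlinarith [hH a, sq_nonneg d]
  have hnot : ∀ c, ¬ nearest X a ⊆ closedBall c l := by
    intro c hc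
    set v := p - c with hv
    have hex : ∀ k : ℕ, ∃ x ∈ X, infDist (a + (1 / ((k : ℝ) + 1)) • v) X
        = dist (a + (1 / ((k : ℝ) + 1)) • v) x := fun k => hX.exists_infDist_eq_dist hne _
    choose x hxX hx using hex
    have ht : Tendsto (fun k : ℕ => 1 / ((k : ℝ) + 1)) atTop (𝓝 0) :=
      tendsto_one_div_add_atTop_nhds_zero_nat
    have hbd : ∀ k, x k ∈ closedBall a (infDist a X + 2 * ‖v‖) := by
      intro k
      have h0 : (0 : ℝ) < 1 / ((k : ℝ) + 1) := by positivity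
      have h1 : 1 / ((k : ℝ) + 1) ≤ 1 := by
        rw [div_le_one (by positivity)]; linarith [Nat.cast_nonneg (α := ℝ) k]
      have h2 : dist (a + (1 / ((k : ℝ) + 1)) • v) a ≤ ‖v‖ := by
        rw [dist_eq_norm, add_sub_cancel_left, norm_smul, Real.norm_eq_abs, abs_of_pos h0]
        nlinarith [norm_nonneg v]
      have h3 := infDist_le_infDist_add_dist (s := X) (x := a + (1 / ((k : ℝ) + 1)) • v) (y := a)
      have h4 := dist_triangle (x k) (a + (1 / ((k : ℝ) + 1)) • v) a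
      rw [dist_comm (x k) (a + _), ← hx k] at h4
      rw [mem_closedBall]
      linarith
    obtain ⟨y, -, φ, hφ, hlim⟩ := (isCompact_closedBall a _).tendsto_subseq hbd
    have ht' := ht.comp hφ.tendsto_atTop
    have hyX : y ∈ X := hX.mem_of_tendsto hlim (Eventually.of_forall fun k => hxX _)
    have hpt : Tendsto (fun k => a + (1 / ((φ k : ℝ) + 1)) • v) atTop (𝓝 a) := by
      have := (ht'.smul_const v).const_add a
      simpa using this
    have hy : dist a y = infDist a X := by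
      have h1 := hpt.dist hlim
      have h2 := ((continuous_infDist_pt X).tendsto a).comp hpt
      refine tendsto_nhds_unique h1 (h2.congr fun k => ?_)
      exact hx (φ k)
    have hyc : ‖y - c‖ ≤ l := by
      have := hc ⟨hyX, hy⟩
      rwa [mem_closedBall, dist_eq_norm] at this
    have hyp : d ≤ ‖y - p‖ := by
      rw [← dist_eq_norm, dist_comm]; exact infDist_le_dist_of_mem hyX
    -- the limiting slope is positive
    have hpos : 0 < -2 * inner ℝ (y - p) v - 2 * ε * inner ℝ (a - p) v := by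
      have e1 : y - c = (y - p) + v := by rw [hv]; abel
      have h1 : ‖y - c‖ ^ 2 ≤ l ^ 2 := pow_le_pow_left₀ (norm_nonneg _) hyc 2
      rw [e1, norm_add_sq_real] at h1
      have h2 : d ^ 2 ≤ ‖y - p‖ ^ 2 := pow_le_pow_left₀ (by linarith) hyp 2
      have h3 : inner ℝ (a - p) v ≤ ‖a - p‖ * ‖v‖ := real_inner_le_norm _ _
      have h4 : 2 * ε * (‖a - p‖ * ‖v‖) ≤ ε * (ε * ‖a - p‖ ^ 2) + ‖v‖ ^ 2 := by
        nlinarith [sq_nonneg (ε * ‖a - p‖ - ‖v‖)]
      have h5 : ε * (ε * ‖a - p‖ ^ 2) ≤ ε * H := mul_le_mul_of_nonneg_left hq hεpos.le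
      nlinarith [mul_le_mul_of_nonneg_left h3 hεpos.le]
    have hle : ∀ k, -2 * inner ℝ (x k - p) v - 2 * ε * inner ℝ (a - p) v
        - ε * (1 / ((k : ℝ) + 1)) * ‖v‖ ^ 2 ≤ 0 := by
      intro k
      set t : ℝ := 1 / ((k : ℝ) + 1) with htk
      have h0 : 0 < t := by positivity
      have h1 := ha (a + t • v)
      simp only [hG] at h1
      rw [hx k, dist_eq_norm] at h1
      have h2 : infDist a X ≤ ‖a - x k‖ := by
        rw [← dist_eq_norm]; exact infDist_le_dist_of_mem (hxX k)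
      have h3 : infDist a X ^ 2 ≤ ‖a - x k‖ ^ 2 := pow_le_pow_left₀ infDist_nonneg h2 2
      have e1 : a + t • v - x k = (a - x k) + t • v := by abel
      have e2 : a + t • v - p = (a - p) + t • v := by abel
      have e3 : a - x k = (a - p) - (x k - p) := by abel
      have e4 : inner ℝ (a - x k) v = inner ℝ (a - p) v - inner ℝ (x k - p) v := by
        rw [e3, inner_sub_left (a - p)]
      rw [e1, e2, norm_add_sq_real, norm_add_sq_real, inner_smul_right, inner_smul_right,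
        norm_smul, mul_pow, Real.norm_eq_abs, sq_abs, e4] at h1
      have : t * (-2 * inner ℝ (x k - p) v - 2 * ε * inner ℝ (a - p) v
        - ε * t * ‖v‖ ^ 2) ≤ 0 := by nlinarith
      by_contra hh
      push Not at hh
      nlinarith [mul_pos h0 hh]
    have hl2 : Tendsto (fun k => -2 * inner ℝ (x (φ k) - p) v - 2 * ε * inner ℝ (a - p) v
        - ε * (1 / ((φ k : ℝ) + 1)) * ‖v‖ ^ 2) atTop
        (𝓝 (-2 * inner ℝ (y - p) v - 2 * ε * inner ℝ (a - p) v - ε * 0 * ‖v‖ ^ 2)) := by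
      refine Tendsto.sub (Tendsto.sub_const (Tendsto.const_mul _ ?_) _)
        ((ht'.const_mul ε).mul_const _)
      exact Tendsto.inner (hlim.sub_const p) tendsto_const_nhds
    have := le_of_tendsto' hl2 fun k => hle (φ k)
    linarith
  refine ⟨a, ⟨?_, hnot⟩, ?_⟩
  · obtain ⟨x, hxX, hx⟩ := hX.exists_infDist_eq_dist hne a
    by_contra hh
    apply hnot x
    intro z hz
    have := Set.not_nontrivial_iff.1 hh hz (show x ∈ nearest X a from ⟨hxX, hx.symm⟩)
    rw [this]
    exact mem_closedBall_self hl.le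
  · rw [mem_ball, dist_comm, dist_eq_norm]
    apply lt_of_pow_lt_pow_left₀ 2 infDist_nonneg
    nlinarith [sq_nonneg ‖a - p‖, mul_nonneg hεpos.le (sq_nonneg ‖a - p‖)]

end Pool.Agent.Results.MP_15b8d6_gt.Recon
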